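import Mathlib
import Pool.Agent.Helper10.UC.Defs
import Pool.Agent.Helper10.UC.Fin
import Pool.Agent.Y189.UD.Defs
import Pool.Agent.Y189.UD.Final

open Topology
open Pool.Agent.Helper10.UC
open Pool.Agent.Y189.UD
open scoped Manifold ContDiff

namespace Pool.Agent.Results.MP_14c953_ag.CoverNotBimeromorphicToDomain

universe u v

/-- Negative answer to Q1: there is a compact algebraic surface `M` (a smooth connected projective
surface) with infinite fundamental group, and even without rational curves, whose universal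
covering `E` is not bimeromorphic to any domain `Ω` of any compact complex manifold `N`. -/
theorem result : ∃ (ι : Type) (_ : Fintype ι) (M : Set (PP ι)),
    IsCompactAlgebraicManifold M 2 ∧ (∀ x : M, Infinite (FundamentalGroup M x)) ∧
    NoRationalCurve M ∧
    ∀ (E : Type u) [TopologicalSpace E] [SimplyConnectedSpace E] [ChartedSpace (Fin 2 → ℂ) E]
      [IsManifold 𝓘(ℂ, Fin 2 → ℂ) ω E] (p : E → M), IsCoveringMap p →
      IsHolomorphicInto (Fin 2 → ℂ) p →
      ∀ (V : Type) [NormedAddCommGroup V] [NormedSpace ℂ V] [FiniteDimensional ℂ V]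
        (N : Type v) [TopologicalSpace N] [CompactSpace N] [T2Space N] [ChartedSpace V N]
        [IsManifold 𝓘(ℂ, V) ω N] (Ω : TopologicalSpace.Opens N), IsConnected (Ω : Set N) →
        ¬ Bimeromorphic (Fin 2 → ℂ) V E Ω :=
  ⟨Ix, inferInstance, MM,
    ⟨⟨eqsM, eqsM_homog, rfl⟩, pathM.isConnected, smoothM⟩, infinite_piM, noRat,
    fun E _ _ _ _ p hp hph V _ _ _ N _ _ _ _ _ Ω hΩ => not_bimero E p hp hph V N Ω hΩ⟩

end Pool.Agent.Results.MP_14c953_ag.CoverNotBimeromorphicToDomain
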